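import Mathlib

set_option autoImplicit false

namespace Pool.Agent.Results.MP_d66889_lc.Convex

open Filter Topology

variable {d : ℕ} {A : Type}

/-- A pattern: a finite support and a map on it. -/
abbrev Pat (d : ℕ) (A : Type) := Σ D : Finset (Fin d → ℤ), (D → A)

def IsSubshift [TopologicalSpace A] (X : Set ((Fin d → ℤ) → A)) : Prop :=
  IsClosed X ∧ ∀ x ∈ X, ∀ u, (fun v => x (v - u)) ∈ X

def GlobValid (X : Set ((Fin d → ℤ) → A)) (p : Pat d A) : Prop :=
  ∃ x ∈ X, ∀ v : p.1, x v = p.2 v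

def XF (F : Set (Pat d A)) : Set ((Fin d → ℤ) → A) :=
  {x | ∀ q ∈ F, ∀ u, ¬ ∀ v : q.1, x (v + u) = q.2 v}

def LocValid (F : Set (Pat d A)) (p : Pat d A) : Prop :=
  ∀ q ∈ F, ∀ u, ∀ h : ∀ v ∈ q.1, v + u ∈ p.1, ¬ ∀ v : q.1, p.2 ⟨v + u, h v v.2⟩ = q.2 v

def emb (v : Fin d → ℤ) : Fin d → ℝ := fun i => v i

def Cvx (C : Set (Fin d → ℤ)) : Prop := C = {v | emb v ∈ convexHull ℝ (emb '' C)}

def E (X : Set ((Fin d → ℤ) → A)) (x : (Fin d → ℤ) → A) (D : Set (Fin d → ℤ))
    (v : Fin d → ℤ) : Set A :=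
  {a | ∃ y ∈ X, (∀ w ∈ D, y w = x w) ∧ y v = a}

def Avo (X : Set ((Fin d → ℤ) → A)) : Prop :=
  ∃ N : Finset (Fin d → ℤ), ∀ C : Finset (Fin d → ℤ), Cvx (C : Set (Fin d → ℤ)) → ∀ v ∉ C,
    Cvx (insert v (C : Set (Fin d → ℤ))) → ∀ x ∈ X,
      E X x C v = E X x ((C : Set (Fin d → ℤ)) ∩ {w | w - v ∈ N}) v

def SFTConv (X : Set ((Fin d → ℤ) → A)) : Prop :=
  ∃ F : Set (Pat d A), F.Finite ∧ X = XF F ∧
    ∀ p : Pat d A, Cvx (p.1 : Set (Fin d → ℤ)) → LocValid F p → GlobValid X p

lemma emb_inj : Function.Injective (emb (d := d)) := fun a b h => by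
  ext i
  have := congrFun h i
  simp only [emb] at this
  exact_mod_cast this

lemma peel (C : Finset (Fin d → ℤ)) (h : Cvx (C : Set (Fin d → ℤ))) (hne : C.Nonempty) :
    ∃ v ∈ C, Cvx ((C.erase v : Finset _) : Set (Fin d → ℤ)) := by
  have hc : IsCompact (convexHull ℝ (emb '' (C : Set (Fin d → ℤ)))) :=
    (C.finite_toSet.image _).isCompact_convexHull ℝ
  obtain ⟨z, hz⟩ := hc.extremePoints_nonempty
    ((hne.coe_sort.elim fun v => ⟨emb v.1, subset_convexHull ℝ _ ⟨v.1, v.2, rfl⟩⟩))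
  obtain ⟨v, hv, rfl⟩ := extremePoints_convexHull_subset hz
  have := ((convex_convexHull ℝ _).mem_extremePoints_iff_mem_diff_convexHull_diff.1 hz).2
  refine ⟨v, hv, Set.Subset.antisymm (fun w hw => subset_convexHull ℝ _ ⟨w, hw, rfl⟩)
    fun w hw => ?_⟩
  have a : w ∈ (C : Set (Fin d → ℤ)) := by
    rw [h]
    exact convexHull_mono (Set.image_mono (Finset.coe_subset.2 (C.erase_subset v))) hw
  refine Finset.mem_coe.2 (Finset.mem_erase.2 ⟨?_, a⟩)
  rintro rfl
  refine this (convexHull_mono ?_ hw)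
  rintro _ ⟨t, ht, rfl⟩
  have ht := Finset.mem_erase.1 ht
  exact ⟨subset_convexHull ℝ _ ⟨t, ht.2, rfl⟩, fun e => ht.1 (emb_inj e)⟩

noncomputable def bx (d n : ℕ) : Finset (Fin d → ℤ) := Fintype.piFinset fun _ => Finset.Icc (-(n : ℤ)) n

lemma bx_cvx (n : ℕ) : Cvx ((bx d n : Finset _) : Set (Fin d → ℤ)) := by
  refine Set.Subset.antisymm (fun w hw => subset_convexHull ℝ _ ⟨w, hw, rfl⟩) fun w hw => ?_
  have : convexHull ℝ (emb '' ((bx d n : Finset _) : Set (Fin d → ℤ))) ⊆
      Set.Icc (fun _ => -(n : ℝ)) (fun _ => n) := by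
    refine convexHull_min ?_ (convex_Icc _ _)
    rintro _ ⟨t, ht, rfl⟩
    simp only [bx, Finset.mem_coe, Fintype.mem_piFinset, Finset.mem_Icc] at ht
    exact ⟨fun i => by have := (ht i).1; simp only [emb]; exact_mod_cast this,
      fun i => by have := (ht i).2; simp only [emb]; exact_mod_cast this⟩
  have := this hw
  simp only [bx, Finset.mem_coe, Fintype.mem_piFinset, Finset.mem_Icc]
  intro i
  have a := this.1 i
  have b := this.2 i
  simp only [emb] at a b
  exact ⟨by exact_mod_cast a, by exact_mod_cast b⟩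

theorem result (d : ℕ) (A : Type) [Finite A] [TopologicalSpace A] [DiscreteTopology A]
    (X : Set ((Fin d → ℤ) → A)) (hX : IsSubshift X) (ha : Avo X) : SFTConv X := by
  classical
  obtain ⟨N, hN⟩ := ha
  let F : Set (Pat d A) := {q | q.1 ⊆ insert 0 N ∧ ¬ GlobValid X q}
  have key : ∀ C : Finset (Fin d → ℤ), Cvx (C : Set (Fin d → ℤ)) → ∀ p : C → A,
      LocValid F ⟨C, p⟩ → GlobValid X ⟨C, p⟩ := by
    intro C
    induction C using Finset.strongInduction with
    | H C ih =>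
      intro hC p hp
      rcases C.eq_empty_or_nonempty with rfl | hne
      · by_contra hc
        exact hp ⟨∅, p⟩ ⟨by simp, hc⟩ 0 (by simp) (by simp)
      obtain ⟨v, hv, hv'⟩ := peel C hC hne
      obtain ⟨x, hx, e⟩ := ih (C.erase v) (Finset.erase_ssubset hv) hv'
        (fun w => p ⟨w, Finset.mem_of_mem_erase w.2⟩)
        (fun q hq u h h' => hp q hq u (fun w hw => Finset.mem_of_mem_erase (h w hw)) h')
      let D : Finset (Fin d → ℤ) := (insert 0 N).filter fun w => w + v ∈ C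
      have hD : ∀ w ∈ D, w + v ∈ C := fun w hw => (Finset.mem_filter.1 hw).2
      obtain ⟨y, hy, e'⟩ : GlobValid X ⟨D, fun w => p ⟨w + v, hD w w.2⟩⟩ := by
        by_contra hc
        exact hp _ ⟨Finset.filter_subset _ _, hc⟩ v hD fun _ => rfl
      have := hN (C.erase v) hv' v (by simp) (by
        rw [← Finset.coe_insert, Finset.insert_erase hv]; exact hC) x hx
      have m : p ⟨v, hv⟩ ∈ E X x ((C.erase v : Finset _) : Set (Fin d → ℤ)) v := by
        rw [this]
        refine ⟨_, hX.2 y hy v, fun w hw => ?_, ?_⟩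
        · have hw' : w - v ∈ D := Finset.mem_filter.2 ⟨Finset.mem_insert_of_mem hw.2, by
            simpa using Finset.mem_of_mem_erase hw.1⟩
          have a := e' ⟨_, hw'⟩
          have b := e ⟨w, hw.1⟩
          simp only [sub_add_cancel] at a b
          exact a.trans b.symm
        · have a := e' ⟨0, Finset.mem_filter.2 ⟨by simp, by simpa using hv⟩⟩
          simpa using a
      obtain ⟨z, hz, e1, e2⟩ := m
      refine ⟨z, hz, fun w => ?_⟩
      by_cases hw : w.1 = v
      · obtain ⟨w, _⟩ := w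
        cases hw
        exact e2
      · have hw' : w.1 ∈ C.erase v := Finset.mem_erase.2 ⟨hw, w.2⟩
        exact (e1 _ hw').trans (e ⟨_, hw'⟩)
  refine ⟨F, ?_, Set.Subset.antisymm ?_ ?_, fun p h => key p.1 h p.2⟩
  · refine ((insert 0 N).powerset.finite_toSet.biUnion
      (t := fun D => Set.range (Sigma.mk (β := fun D : Finset (Fin d → ℤ) => D → A) D))
      fun D _ => Set.finite_range _).subset ?_
    rintro ⟨D, p⟩ h
    exact Set.mem_biUnion (Finset.mem_coe.2 (Finset.mem_powerset.2 h.1)) ⟨p, rfl⟩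
  · intro x hx q hq u h
    exact hq.2 ⟨_, hX.2 x hx (-u), fun v => by simpa using h v⟩
  · intro x hx
    choose y hy e using fun n => key (bx d n) (bx_cvx n) (fun v => x v)
      fun q hq u _ h => hx q hq u h
    refine hX.1.mem_of_tendsto (f := y) (b := atTop) (tendsto_pi_nhds.2 fun v => ?_)
      (Eventually.of_forall hy)
    refine tendsto_const_nhds.congr' ?_
    filter_upwards [eventually_ge_atTop (Finset.univ.sup fun i => (v i).natAbs)] with n hn
    refine (e n ⟨v, ?_⟩).symm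
    simp only [bx, Fintype.mem_piFinset, Finset.mem_Icc]
    intro i
    have := (Finset.le_sup (f := fun i => (v i).natAbs) (Finset.mem_univ i)).trans hn
    omega

end Pool.Agent.Results.MP_d66889_lc.Convex
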